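import Pool.Agent.helper20.SOL.SpecE

/-! # Row sol:ME8a -/

set_option autoImplicit false

namespace Pool.Agent.SOL

open Pool.Agent.helper54.SOG Finset

open scoped BigOperators

/-- a root, in decidable form -/
def ME8a_ok (a : Vec 8) : Prop := (∀ i j, a i % 2 = a j % 2) ∧ (∑ i, a i) % 4 = 0 ∧ dp a a = 8

instance (a : Vec 8) : Decidable (ME8a_ok a) := by unfold ME8a_ok; infer_instance

theorem ME8a_clq (hCLQ : CLQ_stmt) (k : ℕ) (y : Vec 8) (L : List (Vec 8)) (hk : L.length = k)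
    (h1 : ∀ a ∈ L, ME8a_ok a) (h2 : L.Pairwise (fun a b => dp a b = 0)) (h3 : L.sum = y) :
    y ∈ VE R8 k := by
  rw [← hk, ← h3]
  refine hCLQ R8 L (fun a ha => ?_) h2
  obtain ⟨h4, h5, h6⟩ := h1 a ha
  exact ⟨⟨⟨h4, h5⟩, by rw [h6]; norm_num⟩, h6⟩

/-- the numbers of the entries of a vector -/
theorem ME8a_num (hCTE : CTE_stmt) (k : ℕ) (hk : k ≤ 8) (x : Vec 8) (hx : x ∈ XE8 k) :
    (∀ i, |x i| ≤ 8) ∧
    cN 8 x 0 + cN 8 x 1 + cN 8 x 2 + cN 8 x 3 + cN 8 x 4 + cN 8 x 5 + cN 8 x 6 + cN 8 x 7 +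
      cN 8 x 8 = 8 ∧
    cN 8 x 1 + 4 * cN 8 x 2 + 9 * cN 8 x 3 + 16 * cN 8 x 4 + 25 * cN 8 x 5 + 36 * cN 8 x 6 +
      49 * cN 8 x 7 + 64 * cN 8 x 8 = 8 * k ∧
    (x 0 % 2 = 0 → cN 8 x 1 = 0 ∧ cN 8 x 3 = 0 ∧ cN 8 x 5 = 0 ∧ cN 8 x 7 = 0) ∧
    (x 0 % 2 = 1 → cN 8 x 0 = 0 ∧ cN 8 x 2 = 0 ∧ cN 8 x 4 = 0 ∧ cN 8 x 6 = 0 ∧ cN 8 x 8 = 0) := by
  obtain ⟨⟨hpar, hs4⟩, hn⟩ := hx
  have hb : ∀ i, |x i| ≤ 8 := by
    intro i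
    have h1 : x i * x i ≤ dp x x := by
      unfold dp
      exact single_le_sum (f := fun i => x i * x i) (fun j _ => mul_self_nonneg (x j)) (mem_univ i)
    have h2 : x i * x i ≤ 64 := by
      rw [hn] at h1
      have : (k : ℤ) ≤ 8 := by exact_mod_cast hk
      linarith
    rw [abs_le]
    constructor <;> nlinarith
  obtain ⟨c1, c2, _, c4⟩ := hCTE 8 x le_rfl hb
  have hempty : univ.filter (fun i : Fin 8 => ¬ i.val < 8) = ∅ := by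
    apply filter_false_of_mem
    intro i _
    exact not_not.2 i.isLt
  rw [hempty, sum_empty, add_zero] at c4
  rw [← c4, hn] at c2
  simp only [sum_range_succ, sum_range_zero] at c1 c2
  norm_num at c1 c2
  have hzero : ∀ v : ℤ, (∀ i, |x i| ≠ v) → cN 8 x v = 0 := by
    intro v hv
    unfold cN
    rw [card_eq_zero]
    apply filter_false_of_mem
    intro i _ h
    exact hv i h.2
  refine ⟨hb, by omega, by omega, fun h0 => ?_, fun h0 => ?_⟩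
  · have hev : ∀ i, x i % 2 = 0 := fun i => by rw [hpar i 0, h0]
    have hodd : ∀ v : ℤ, v % 2 = 1 → cN 8 x v = 0 := by
      intro v hv
      apply hzero
      intro i hi
      have := hev i
      rcases abs_cases (x i) with ⟨h, _⟩ | ⟨h, _⟩ <;> omega
    exact ⟨hodd 1 rfl, hodd 3 rfl, hodd 5 rfl, hodd 7 rfl⟩
  · have hev : ∀ i, x i % 2 = 1 := fun i => by rw [hpar i 0, h0]
    have hodd : ∀ v : ℤ, v % 2 = 0 → cN 8 x v = 0 := by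
      intro v hv
      apply hzero
      intro i hi
      have := hev i
      rcases abs_cases (x i) with ⟨h, _⟩ | ⟨h, _⟩ <;> omega
    exact ⟨hodd 0 rfl, hodd 2 rfl, hodd 4 rfl, hodd 6 rfl, hodd 8 rfl⟩

/-- comparison with a representative -/
theorem ME8a_cmp (hREP : REP_stmt) (hCTE : CTE_stmt) (k : ℕ) (x y : Vec 8)
    (hx : ∀ i, |x i| ≤ 8) (hy : ∀ i, |y i| ≤ 8)
    (hc : ∀ v ∈ range 9, cN 8 x (v : ℤ) = cN 8 y (v : ℤ)) (hp : (∀ v : ℤ, cN 8 x v = cN 8 y v) →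
      pN 8 x = pN 8 y) (hyV : y ∈ VE R8 k) : x ∈ VE R8 k := by
  have h1 : ∀ v : ℤ, cN 8 x v = cN 8 y v := by
    intro v
    by_cases hv : v < 0 ∨ 8 < v
    · rw [(hCTE 8 x le_rfl hx).2.2.1 v hv, (hCTE 8 y le_rfl hy).2.2.1 v hv]
    · push Not at hv
      obtain ⟨n, rfl⟩ := Int.eq_ofNat_of_zero_le hv.1
      exact hc n (mem_range.2 (by omega))
  exact (hREP k x y).1 h1 (hp h1) hyV

/-- a representative with even entries, one of them zero -/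
theorem ME8a_even (hREP : REP_stmt) (hCTE : CTE_stmt) (hPRD : PRD_stmt) (hCLQ : CLQ_stmt) (k : ℕ)
    (x y : Vec 8) (L : List (Vec 8)) (hx : ∀ i, |x i| ≤ 8) (hy : ∀ i, |y i| ≤ 8)
    (hc : ∀ v ∈ range 9, cN 8 x (v : ℤ) = cN 8 y (v : ℤ)) (h0 : 0 < cN 8 y 0) (hk : L.length = k)
    (h1 : ∀ a ∈ L, ME8a_ok a) (h2 : L.Pairwise (fun a b => dp a b = 0)) (h3 : L.sum = y) :
    x ∈ VE R8 k := by
  refine ME8a_cmp hREP hCTE k x y hx hy hc (fun h => ?_) (ME8a_clq hCLQ k y L hk h1 h2 h3)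
  have h4 : 0 < cN 8 x 0 := by rw [h 0]; exact h0
  obtain ⟨h5, h6⟩ := hPRD.2.1 8 x y h h4
  rw [h5, h6]

/-- a representative with odd entries -/
theorem ME8a_odd (hREP : REP_stmt) (hCTE : CTE_stmt) (hPRD : PRD_stmt) (hCLQ : CLQ_stmt) (k : ℕ)
    (x y : Vec 8) (L : List (Vec 8)) (hx : ∀ i, |x i| ≤ 8) (hy : ∀ i, |y i| ≤ 8) (hxE : x ∈ EL)
    (hyE : (∀ i j, y i % 2 = y j % 2) ∧ (∑ i, y i) % 4 = 0) (hx0 : x 0 % 2 = 1)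
    (hc : ∀ v ∈ range 9, cN 8 x (v : ℤ) = cN 8 y (v : ℤ)) (hk : L.length = k)
    (h1 : ∀ a ∈ L, ME8a_ok a) (h2 : L.Pairwise (fun a b => dp a b = 0)) (h3 : L.sum = y) :
    x ∈ VE R8 k :=
  ME8a_cmp hREP hCTE k x y hx hy hc
    (fun h => hPRD.1 8 x y (Or.inl rfl) hxE hyE hx0 (fun i hi => absurd i.isLt (by omega)) h)
    (ME8a_clq hCLQ k y L hk h1 h2 h3)

theorem ME8a_c9 (x y : Vec 8) (c : ℕ → ℕ) (hy : ∀ v ∈ range 9, cN 8 y (v : ℤ) = c v)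
    (h0 : cN 8 x 0 = c 0) (h1 : cN 8 x 1 = c 1) (h2 : cN 8 x 2 = c 2) (h3 : cN 8 x 3 = c 3)
    (h4 : cN 8 x 4 = c 4) (h5 : cN 8 x 5 = c 5) (h6 : cN 8 x 6 = c 6) (h7 : cN 8 x 7 = c 7)
    (h8 : cN 8 x 8 = c 8) : ∀ v ∈ range 9, cN 8 x (v : ℤ) = cN 8 y (v : ℤ) := by
  intro v hv
  rw [hy v hv]
  rw [mem_range] at hv
  interval_cases v <;> assumption

theorem ME8a_r10 (hREP : REP_stmt) (hCTE : CTE_stmt) (hPRD : PRD_stmt) (hCLQ : CLQ_stmt)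
    (x : Vec 8) (hx : ∀ i, |x i| ≤ 8)
    (h0 : cN 8 x 0 = 6) (h1 : cN 8 x 1 = 0) (h2 : cN 8 x 2 = 2) (h3 : cN 8 x 3 = 0) (h4 : cN 8 x 4 = 0) (h5 : cN 8 x 5 = 0) (h6 : cN 8 x 6 = 0) (h7 : cN 8 x 7 = 0) (h8 : cN 8 x 8 = 0) :
    x ∈ VE R8 1 := by
  refine ME8a_even hREP hCTE hPRD hCLQ 1 x ![2, 2, 0, 0, 0, 0, 0, 0]
    [![2, 2, 0, 0, 0, 0, 0, 0]] hx (by decide)
    (ME8a_c9 x _ (fun v => ([6, 0, 2, 0, 0, 0, 0, 0, 0] : List ℕ).getD v 0) (by decide) h0 h1 h2 h3 h4 h5 h6 h7 h8) (by decide) rfl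
    (by decide) (by decide) (by decide)

theorem ME8a_r11 (hREP : REP_stmt) (hCTE : CTE_stmt) (hPRD : PRD_stmt) (hCLQ : CLQ_stmt)
    (x : Vec 8) (hx : ∀ i, |x i| ≤ 8) (hE : x ∈ EL) (ho : x 0 % 2 = 1)
    (h0 : cN 8 x 0 = 0) (h1 : cN 8 x 1 = 8) (h2 : cN 8 x 2 = 0) (h3 : cN 8 x 3 = 0) (h4 : cN 8 x 4 = 0) (h5 : cN 8 x 5 = 0) (h6 : cN 8 x 6 = 0) (h7 : cN 8 x 7 = 0) (h8 : cN 8 x 8 = 0) :
    x ∈ VE R8 1 := by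
  refine ME8a_odd hREP hCTE hPRD hCLQ 1 x ![1, 1, 1, 1, 1, 1, 1, 1]
    [![1, 1, 1, 1, 1, 1, 1, 1]] hx (by decide) hE
    (by decide) ho (ME8a_c9 x _ (fun v => ([0, 8, 0, 0, 0, 0, 0, 0, 0] : List ℕ).getD v 0) (by decide) h0 h1 h2 h3 h4 h5 h6 h7 h8) rfl
    (by decide) (by decide) (by decide)

theorem ME8a_r20 (hREP : REP_stmt) (hCTE : CTE_stmt) (hPRD : PRD_stmt) (hCLQ : CLQ_stmt)
    (x : Vec 8) (hx : ∀ i, |x i| ≤ 8)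
    (h0 : cN 8 x 0 = 4) (h1 : cN 8 x 1 = 0) (h2 : cN 8 x 2 = 4) (h3 : cN 8 x 3 = 0) (h4 : cN 8 x 4 = 0) (h5 : cN 8 x 5 = 0) (h6 : cN 8 x 6 = 0) (h7 : cN 8 x 7 = 0) (h8 : cN 8 x 8 = 0) :
    x ∈ VE R8 2 := by
  refine ME8a_even hREP hCTE hPRD hCLQ 2 x ![2, 2, 2, 2, 0, 0, 0, 0]
    [![2, 2, 0, 0, 0, 0, 0, 0], ![0, 0, 2, 2, 0, 0, 0, 0]] hx (by decide)
    (ME8a_c9 x _ (fun v => ([4, 0, 4, 0, 0, 0, 0, 0, 0] : List ℕ).getD v 0) (by decide) h0 h1 h2 h3 h4 h5 h6 h7 h8) (by decide) rfl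
    (by decide) (by decide) (by decide)

theorem ME8a_r21 (hREP : REP_stmt) (hCTE : CTE_stmt) (hPRD : PRD_stmt) (hCLQ : CLQ_stmt)
    (x : Vec 8) (hx : ∀ i, |x i| ≤ 8)
    (h0 : cN 8 x 0 = 7) (h1 : cN 8 x 1 = 0) (h2 : cN 8 x 2 = 0) (h3 : cN 8 x 3 = 0) (h4 : cN 8 x 4 = 1) (h5 : cN 8 x 5 = 0) (h6 : cN 8 x 6 = 0) (h7 : cN 8 x 7 = 0) (h8 : cN 8 x 8 = 0) :
    x ∈ VE R8 2 := by
  refine ME8a_even hREP hCTE hPRD hCLQ 2 x ![4, 0, 0, 0, 0, 0, 0, 0]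
    [![2, 2, 0, 0, 0, 0, 0, 0], ![2, -2, 0, 0, 0, 0, 0, 0]] hx (by decide)
    (ME8a_c9 x _ (fun v => ([7, 0, 0, 0, 1, 0, 0, 0, 0] : List ℕ).getD v 0) (by decide) h0 h1 h2 h3 h4 h5 h6 h7 h8) (by decide) rfl
    (by decide) (by decide) (by decide)

theorem ME8a_r22 (hREP : REP_stmt) (hCTE : CTE_stmt) (hPRD : PRD_stmt) (hCLQ : CLQ_stmt)
    (x : Vec 8) (hx : ∀ i, |x i| ≤ 8) (hE : x ∈ EL) (ho : x 0 % 2 = 1)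
    (h0 : cN 8 x 0 = 0) (h1 : cN 8 x 1 = 7) (h2 : cN 8 x 2 = 0) (h3 : cN 8 x 3 = 1) (h4 : cN 8 x 4 = 0) (h5 : cN 8 x 5 = 0) (h6 : cN 8 x 6 = 0) (h7 : cN 8 x 7 = 0) (h8 : cN 8 x 8 = 0) :
    x ∈ VE R8 2 := by
  refine ME8a_odd hREP hCTE hPRD hCLQ 2 x ![3, 1, 1, 1, 1, 1, 1, -1]
    [![2, 2, 0, 0, 0, 0, 0, 0], ![1, -1, 1, 1, 1, 1, 1, -1]] hx (by decide) hE
    (by decide) ho (ME8a_c9 x _ (fun v => ([0, 7, 0, 1, 0, 0, 0, 0, 0] : List ℕ).getD v 0) (by decide) h0 h1 h2 h3 h4 h5 h6 h7 h8) rfl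
    (by decide) (by decide) (by decide)

theorem ME8a_r30 (hREP : REP_stmt) (hCTE : CTE_stmt) (hPRD : PRD_stmt) (hCLQ : CLQ_stmt)
    (x : Vec 8) (hx : ∀ i, |x i| ≤ 8)
    (h0 : cN 8 x 0 = 2) (h1 : cN 8 x 1 = 0) (h2 : cN 8 x 2 = 6) (h3 : cN 8 x 3 = 0) (h4 : cN 8 x 4 = 0) (h5 : cN 8 x 5 = 0) (h6 : cN 8 x 6 = 0) (h7 : cN 8 x 7 = 0) (h8 : cN 8 x 8 = 0) :
    x ∈ VE R8 3 := by
  refine ME8a_even hREP hCTE hPRD hCLQ 3 x ![2, 2, 2, 2, 2, 2, 0, 0]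
    [![2, 2, 0, 0, 0, 0, 0, 0], ![0, 0, 2, 2, 0, 0, 0, 0], ![0, 0, 0, 0, 2, 2, 0, 0]] hx (by decide)
    (ME8a_c9 x _ (fun v => ([2, 0, 6, 0, 0, 0, 0, 0, 0] : List ℕ).getD v 0) (by decide) h0 h1 h2 h3 h4 h5 h6 h7 h8) (by decide) rfl
    (by decide) (by decide) (by decide)

theorem ME8a_r31 (hREP : REP_stmt) (hCTE : CTE_stmt) (hPRD : PRD_stmt) (hCLQ : CLQ_stmt)
    (x : Vec 8) (hx : ∀ i, |x i| ≤ 8)
    (h0 : cN 8 x 0 = 5) (h1 : cN 8 x 1 = 0) (h2 : cN 8 x 2 = 2) (h3 : cN 8 x 3 = 0) (h4 : cN 8 x 4 = 1) (h5 : cN 8 x 5 = 0) (h6 : cN 8 x 6 = 0) (h7 : cN 8 x 7 = 0) (h8 : cN 8 x 8 = 0) :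
    x ∈ VE R8 3 := by
  refine ME8a_even hREP hCTE hPRD hCLQ 3 x ![4, 2, 2, 0, 0, 0, 0, 0]
    [![2, 0, 0, 2, 0, 0, 0, 0], ![2, 0, 0, -2, 0, 0, 0, 0], ![0, 2, 2, 0, 0, 0, 0, 0]] hx (by decide)
    (ME8a_c9 x _ (fun v => ([5, 0, 2, 0, 1, 0, 0, 0, 0] : List ℕ).getD v 0) (by decide) h0 h1 h2 h3 h4 h5 h6 h7 h8) (by decide) rfl
    (by decide) (by decide) (by decide)

theorem ME8a_r32 (hREP : REP_stmt) (hCTE : CTE_stmt) (hPRD : PRD_stmt) (hCLQ : CLQ_stmt)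
    (x : Vec 8) (hx : ∀ i, |x i| ≤ 8) (hE : x ∈ EL) (ho : x 0 % 2 = 1)
    (h0 : cN 8 x 0 = 0) (h1 : cN 8 x 1 = 6) (h2 : cN 8 x 2 = 0) (h3 : cN 8 x 3 = 2) (h4 : cN 8 x 4 = 0) (h5 : cN 8 x 5 = 0) (h6 : cN 8 x 6 = 0) (h7 : cN 8 x 7 = 0) (h8 : cN 8 x 8 = 0) :
    x ∈ VE R8 3 := by
  refine ME8a_odd hREP hCTE hPRD hCLQ 3 x ![3, 3, 1, 1, 1, 1, 1, 1]
    [![2, 0, 2, 0, 0, 0, 0, 0], ![0, 2, 0, 2, 0, 0, 0, 0], ![1, 1, -1, -1, 1, 1, 1, 1]] hx (by decide) hE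
    (by decide) ho (ME8a_c9 x _ (fun v => ([0, 6, 0, 2, 0, 0, 0, 0, 0] : List ℕ).getD v 0) (by decide) h0 h1 h2 h3 h4 h5 h6 h7 h8) rfl
    (by decide) (by decide) (by decide)

theorem ME8a (hREP : REP_stmt) (hCTE : CTE_stmt) (hPRD : PRD_stmt) (hCLQ : CLQ_stmt) :
    ME8a_stmt := by
  intro k hk1 hk3 x hx
  have hk : k = 1 ∨ k = 2 ∨ k = 3 := by omega
  obtain ⟨hb, hs, hq, he, ho⟩ := ME8a_num hCTE k (by omega) x hx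
  have hE := hx.1
  have e8 : cN 8 x 8 = 0 := by omega
  have e7 : cN 8 x 7 = 0 := by omega
  have e6 : cN 8 x 6 = 0 := by omega
  have e5 : cN 8 x 5 = 0 := by omega
  rw [e8, e7, e6, e5] at hs hq
  rcases Int.emod_two_eq_zero_or_one (x 0) with h0 | h0
  · obtain ⟨e1, e3, _, _⟩ := he h0
    clear he ho
    rw [e1, e3] at hs hq
    rcases hk with rfl | rfl | rfl
    · exact ME8a_r10 hREP hCTE hPRD hCLQ x hb (by omega) e1 (by omega) e3 (by omega) e5 e6 e7 e8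
    · have h4 : cN 8 x 4 = 0 ∨ cN 8 x 4 = 1 := by omega
      rcases h4 with h4 | h4
      · exact ME8a_r20 hREP hCTE hPRD hCLQ x hb (by omega) e1 (by omega) e3 h4 e5 e6 e7 e8
      · exact ME8a_r21 hREP hCTE hPRD hCLQ x hb (by omega) e1 (by omega) e3 h4 e5 e6 e7 e8
    · have h4 : cN 8 x 4 = 0 ∨ cN 8 x 4 = 1 := by omega
      rcases h4 with h4 | h4
      · exact ME8a_r30 hREP hCTE hPRD hCLQ x hb (by omega) e1 (by omega) e3 h4 e5 e6 e7 e8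
      · exact ME8a_r31 hREP hCTE hPRD hCLQ x hb (by omega) e1 (by omega) e3 h4 e5 e6 e7 e8
  · obtain ⟨e0, e2, e4, _, _⟩ := ho h0
    clear he ho
    rw [e0, e2, e4] at hs
    rw [e2, e4] at hq
    rcases hk with rfl | rfl | rfl
    · exact ME8a_r11 hREP hCTE hPRD hCLQ x hb hE h0 e0 (by omega) e2 (by omega) e4 e5 e6 e7 e8
    · exact ME8a_r22 hREP hCTE hPRD hCLQ x hb hE h0 e0 (by omega) e2 (by omega) e4 e5 e6 e7 e8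
    · exact ME8a_r32 hREP hCTE hPRD hCLQ x hb hE h0 e0 (by omega) e2 (by omega) e4 e5 e6 e7 e8

end Pool.Agent.SOL
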