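import Pool.Agent.helper20.SOL.SpecP

/-!
# Row sol:BC2
-/

set_option autoImplicit false

namespace Pool.Agent.SOL

open Finset

open scoped BigOperators

lemma BC2_even {d m' : ℕ} {x : Vec d} (hx : x ∈ TD d m' 0) (p : Fin d) : x p % 2 = 0 := by
  have h4 : cnt x 1 = 0 := hx.2.2
  unfold cnt at h4
  rw [Finset.card_eq_zero, Finset.filter_eq_empty_iff] at h4
  have h5 := h4 (mem_univ p)
  have h6 := hx.1 p
  have h7 : |x p| = 0 ∨ |x p| = 2 := by
    have := abs_nonneg (x p)
    omega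
  rcases h7 with h | h
  · rw [abs_eq_zero.1 h]
    rfl
  · rcases abs_choice (x p) with h8 | h8 <;> rw [h8] at h <;> omega

lemma BC2_two {n t s : ℕ} (ht : 1 ≤ t) (hts : t + s ≤ n) (v : Vec n) (i0 : Fin n)
    (h : ∀ x ∈ TD n t s, ∑ i, |x i| * |v i| ≤ 2) (hodd : v i0 % 2 = 0) (hip : v i0 ≠ 0) : False := by
  have hn : 0 < n := by omega
  have hex : ∃ x ∈ TD n t s, x i0 = 2 := by
    refine ⟨fun l => std n t s (Equiv.swap i0 ⟨0, hn⟩ l), TD_perm _ (std_mem hts), ?_⟩
    show std n t s (Equiv.swap i0 ⟨0, hn⟩ i0) = 2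
    rw [Equiv.swap_apply_left]
    unfold std
    have h0 : 0 < t := ht
    simp only [h0, if_true]
  obtain ⟨x, hx, hx0⟩ := hex
  have h1 := h x hx
  have h2 : |x i0| * |v i0| ≤ ∑ i, |x i| * |v i| :=
    Finset.single_le_sum (f := fun i => |x i| * |v i|)
      (fun i _ => mul_nonneg (abs_nonneg _) (abs_nonneg _)) (mem_univ i0)
  rw [hx0] at h2
  have h3 : 2 ≤ |v i0| := by
    have h4 : |v i0| ≠ 0 := abs_ne_zero.2 hip
    have h5 := abs_nonneg (v i0)
    rcases abs_choice (v i0) with h6 | h6 <;> rw [h6] at h4 h5 ⊢ <;> omega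
  have h4 : |(2 : ℤ)| = 2 := by norm_num
  rw [h4] at h2
  linarith

lemma BC2_lone {n t s : ℕ} (ht : 3 ≤ 2 * t + s) (hts : t + s ≤ n) (v : Vec n) (i0 : Fin n)
    (h : ∀ x ∈ TD n t s, ∑ i, |x i| * |v i| ≤ 2) (hodd : ¬ v i0 % 2 = 0)
    (hpar : ∀ i j, v i % 2 = v j % 2) : False := by
  have h1 := h _ (std_mem hts)
  have h2 : ∀ i, 1 ≤ |v i| := by
    intro i
    have h3 := hpar i i0
    have h4 : v i ≠ 0 := by
      intro h5
      rw [h5] at h3
      omega
    exact Int.one_le_abs h4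
  have h3 : ∑ i, |std n t s i| ≤ ∑ i, |std n t s i| * |v i| := by
    apply Finset.sum_le_sum
    intro i _
    have h4 := h2 i
    have h5 := abs_nonneg (std n t s i)
    calc |std n t s i| = |std n t s i| * 1 := (mul_one _).symm
      _ ≤ |std n t s i| * |v i| := mul_le_mul_of_nonneg_left h4 h5
  rw [l1_of_TD (std_mem hts)] at h3
  have h6 : (3 : ℤ) ≤ 2 * (t : ℤ) + s := by exact_mod_cast ht
  linarith

/-- Row BC2. -/
theorem BC2 : BC2_stmt := by
  intro n k d m' ρ m S' T hn hk hρ hm hS' h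
  have hk0 : (0 : ℝ) < k := by exact_mod_cast (by omega : 0 < k)
  have hρ0 : (0 : ℝ) < ρ := by exact_mod_cast hρ
  have hm0 : (0 : ℝ) < m := by exact_mod_cast hm
  have hev : ∀ x ∈ S', ∀ p, x p % 2 = 0 := fun x hx p => BC2_even (hS' x hx) p
  -- half differences
  have hd : ∀ i j, i ≠ j → ∃ u : Vec d, T i - T j = cv u + cv u := by
    intro i j hij
    obtain ⟨a, ha, b, hb, hab⟩ := h.sub i j hij
    refine ⟨fun p => (a p - b p) / 2, ?_⟩
    rw [hab]
    funext p
    have h1 := hev a ha p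
    have h2 := hev b hb p
    have h3 : a p - b p = (a p - b p) / 2 + (a p - b p) / 2 := by omega
    show (((a - b) p : ℤ) : ℝ) = (((a p - b p) / 2 : ℤ) : ℝ) + (((a p - b p) / 2 : ℤ) : ℝ)
    rw [Pi.sub_apply]
    exact_mod_cast h3
  have ha : ∀ i j, i ≠ j → ∃ u : Vec d, T i + T j = cv u + cv u := by
    intro i j hij
    obtain ⟨a, ha, b, hb, hab⟩ := h.add i j hij
    refine ⟨fun p => (a p - b p) / 2, ?_⟩
    rw [hab]
    funext p
    have h1 := hev a ha p
    have h2 := hev b hb p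
    have h3 : a p - b p = (a p - b p) / 2 + (a p - b p) / 2 := by omega
    show (((a - b) p : ℤ) : ℝ) = (((a p - b p) / 2 : ℤ) : ℝ) + (((a p - b p) / 2 : ℤ) : ℝ)
    rw [Pi.sub_apply]
    exact_mod_cast h3
  have hint : ∀ i, ∃ c : Vec d, T i = cv c := by
    intro i
    obtain ⟨j, hij⟩ := exists_ne_fin (by omega : 2 ≤ n) i
    obtain ⟨u, hu⟩ := hd i j hij
    obtain ⟨w, hw⟩ := ha i j hij
    refine ⟨u + w, ?_⟩
    funext p
    have h1 := congrFun hu p
    have h2 := congrFun hw p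
    simp only [Pi.sub_apply, Pi.add_apply] at h1 h2
    show T i p = (((u + w) p : ℤ) : ℝ)
    rw [Pi.add_apply]
    unfold cv at h1 h2
    push_cast
    linarith
  choose c hc using hint
  have hpar : ∀ i j p, c i p % 2 = c j p % 2 := by
    intro i j p
    by_cases hij : i = j
    · rw [hij]
    · obtain ⟨u, hu⟩ := hd i j hij
      have h1 := congrFun hu p
      rw [hc i, hc j] at h1
      simp only [Pi.sub_apply, Pi.add_apply] at h1
      unfold cv at h1
      have h2 : c i p - c j p = u p + u p := by exact_mod_cast h1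
      omega
  -- a nonzero coordinate
  have hne : ∃ i p, c i p ≠ 0 := by
    by_contra hall
    push Not at hall
    have h1 := h.norm ⟨0, by omega⟩
    rw [hc] at h1
    have h2 : cv (c ⟨0, by omega⟩) = 0 := by
      funext p
      show ((c ⟨0, by omega⟩ p : ℤ) : ℝ) = 0
      rw [hall]
      simp
    rw [h2, zero_dotProduct] at h1
    have h3 : (0 : ℝ) < (ρ * m : ℝ) / (2 * k) := by positivity
    exact absurd h1 h3.ne
  obtain ⟨i0, p, hip⟩ := hne
  -- the value at p of an image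
  have himg : ∀ {t s : ℕ}, (∀ x ∈ TD n t s, ∃ a ∈ S', ∑ i, (x i : ℝ) • T i = cv a) →
      ∀ x ∈ TD n t s, ∑ i, |x i| * |c i p| ≤ 2 := by
    intro t s hts x hx
    obtain ⟨a, haV, hax⟩ := hts _ (align hx (fun i => c i p))
    have h1 := congrFun hax p
    rw [Finset.sum_apply] at h1
    have h2 : ∀ i, (((if c i p < 0 then -|x i| else |x i| : ℤ) : ℝ) • T i) p =
        ((|x i| * |c i p| : ℤ) : ℝ) := by
      intro i
      rw [Pi.smul_apply, hc i, smul_eq_mul, ← align_mul (x i) (c i p)]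
      unfold cv
      push_cast
      rfl
    have h3 : ∑ i, ((|x i| * |c i p| : ℤ) : ℝ) = (a p : ℝ) := by
      rw [← Finset.sum_congr rfl (fun i _ => h2 i)]
      exact h1
    have h4 : ∑ i, |x i| * |c i p| = a p := by exact_mod_cast h3
    rw [h4]
    exact (le_abs_self _).trans ((hS' a haV).1 p)
  by_cases hodd : c i0 p % 2 = 0
  · obtain ⟨t, s, ht, hts, hT⟩ := h.two hk
    exact BC2_two ht hts (fun i => c i p) i0 (himg hT) hodd hip
  · obtain ⟨t, s, ht, hts, hT⟩ := h.lone hk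
    exact BC2_lone ht hts (fun i => c i p) i0 (himg hT) hodd (fun i j => hpar i j p)

end Pool.Agent.SOL
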